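import Pool.Agent.TH824.BK.Mats

/-!
BK-J3 (for helper824, MP_5ae62c_nt): strong approximation and approximation at infinity for
`F_2(t)`, finite residue lemmas.
-/

open Polynomial IsDedekindDomain Matrix MeasureTheory
open scoped WithZero RestrictedProduct

noncomputable section
namespace TH824.BK

lemma v_alg (v : Pl) (k : Kx) : Valued.v (algebraMap Kx (Kv v) k) = v.valuation Kx k :=
  HeightOneSpectrum.valuedAdicCompletion_eq_valuation' v k

lemma v_inf (k : Kx) : Valued.v (algebraMap Kx Kinf k) = RatFunc.inftyValuation (ZMod 2) k := by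
  let _ := RatFunc.inftyValued (ZMod 2)
  exact Valued.valuedCompletion_apply k

lemma dense_inf : DenseRange (algebraMap Kx Kinf) := by
  let _ := RatFunc.inftyValued (ZMod 2)
  exact UniformSpace.Completion.denseRange_coe

lemma dense_v (v : Pl) : DenseRange (algebraMap Kx (Kv v)) :=
  HeightOneSpectrum.denseRange_algebraMap Kx v

/-- approximation from density -/
lemma approx_one {L : Type} [Field L] [Valued L ℤᵐ⁰] {f : Kx →+* L} (hf : DenseRange f) (x : L) :
    ∃ k : Kx, Valued.v (x - f k) ≤ 1 := by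
  have hc : Continuous (fun y : L => x - y) := continuous_const.sub continuous_id
  have h1 : IsOpen ((fun y : L => x - y) ⁻¹' ((Valued.v (R := L)).integer : Set L)) :=
    (Valued.isOpen_integer L).preimage hc
  obtain ⟨k, hk⟩ := hf.exists_mem_open h1 ⟨x, by simp⟩
  exact ⟨k, hk⟩

lemma approx_exp {L : Type} [Field L] [Valued L ℤᵐ⁰] {f : Kx →+* L} (hf : DenseRange f)
    (p : Kx) (hp : Valued.v (f p) = WithZero.exp (-1 : ℤ)) (x : L) (M : ℕ) :
    ∃ k : Kx, Valued.v (x - f k) ≤ WithZero.exp (-(M : ℤ)) := by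
  have hp0 : f p ≠ 0 := by
    intro h
    rw [h, map_zero] at hp
    exact (WithZero.exp_ne_zero).symm hp
  obtain ⟨k, hk⟩ := approx_one hf (x / (f p) ^ M)
  refine ⟨p ^ M * k, ?_⟩
  have h1 : x - f (p ^ M * k) = (f p) ^ M * (x / (f p) ^ M - f k) := by
    rw [map_mul, map_pow]
    field_simp
  rw [h1, map_mul, map_pow, hp]
  have h2 : (WithZero.exp (-1 : ℤ)) ^ M = WithZero.exp (-(M : ℤ)) := by
    rw [← WithZero.exp_nsmul]
    simp
  rw [h2]
  exact mul_le_of_le_one_right' hk

/-- a generator of the ideal of a place -/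
lemma exists_gen (v : Pl) : ∃ P : Rx, v.asIdeal = Ideal.span {P} ∧ P ≠ 0 := by
  obtain ⟨P, hP⟩ := (IsPrincipalIdealRing.principal v.asIdeal).principal
  refine ⟨P, hP, ?_⟩
  rintro rfl
  apply v.ne_bot
  rw [hP]
  simp

lemma v_gen {v : Pl} {P : Rx} (hP : v.asIdeal = Ideal.span {P}) (hP0 : P ≠ 0) :
    v.valuation Kx (algebraMap Rx Kx P) = WithZero.exp (-1 : ℤ) := by
  rw [HeightOneSpectrum.valuation_of_algebraMap]
  exact v.intValuation_singleton hP0 hP

lemma w_gen {v w : Pl} {P : Rx} (hP : v.asIdeal = Ideal.span {P}) (hvw : w ≠ v) :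
    w.valuation Kx (algebraMap Rx Kx P) = 1 := by
  rw [HeightOneSpectrum.valuation_eq_one_iff_notMem]
  intro hmem
  apply hvw
  have h1 : v.asIdeal ≤ w.asIdeal := by
    rw [hP, Ideal.span_singleton_le_iff_mem]
    exact hmem
  exact HeightOneSpectrum.ext (v.isMaximal.eq_of_le w.isPrime.ne_top h1).symm

lemma exists_exp_bound (γ : ℤᵐ⁰) : ∃ n : ℕ, γ ≤ WithZero.exp (n : ℤ) := by
  rcases eq_or_ne γ 0 with h | h
  · exact ⟨0, by rw [h]; simp⟩
  · refine ⟨(WithZero.log γ).toNat, ?_⟩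
    rw [← WithZero.log_le_iff_le_exp h]
    exact Int.self_le_toNat _

/-- partial fractions: the polar part of `k` at `v` -/
lemma polar_part (v : Pl) (k : Kx) : ∃ ξ : Kx, v.valuation Kx (k - ξ) ≤ 1 ∧
    ∀ w : Pl, w ≠ v → w.valuation Kx ξ ≤ 1 := by
  obtain ⟨P, hP, hP0⟩ := exists_gen v
  obtain ⟨n, hn⟩ := exists_exp_bound (v.valuation Kx k)
  set π : Kx := algebraMap Rx Kx P with hπ
  have hπ0 : π ≠ 0 := by
    rw [hπ]
    simpa using hP0
  have hvπ : v.valuation Kx π = WithZero.exp (-1 : ℤ) := v_gen hP hP0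
  have hvπn : v.valuation Kx (π ^ n) = WithZero.exp (-(n : ℤ)) := by
    rw [map_pow, hvπ, ← WithZero.exp_nsmul]
    simp
  have h1 : v.valuation Kx (π ^ n * k) ≤ 1 := by
    rw [map_mul, hvπn]
    calc WithZero.exp (-(n : ℤ)) * v.valuation Kx k
        ≤ WithZero.exp (-(n : ℤ)) * WithZero.exp (n : ℤ) := by gcongr
      _ = 1 := by rw [← WithZero.exp_add]; simp
  obtain ⟨c, hc⟩ := HeightOneSpectrum.exists_valuation_sub_lt_of_integer v h1
    (Units.mk0 (WithZero.exp (-(n : ℤ))) WithZero.exp_ne_zero)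
  rw [Units.val_mk0] at hc
  refine ⟨algebraMap Rx Kx c / π ^ n, ?_, ?_⟩
  · have h2 : k - algebraMap Rx Kx c / π ^ n =
        -((algebraMap Rx Kx c - π ^ n * k) / π ^ n) := by
      field_simp
      ring
    rw [h2, Valuation.map_neg, map_div₀, hvπn]
    exact (div_le_one₀ (by rw [zero_lt_iff]; exact WithZero.exp_ne_zero)).2 hc.le
  · intro w hw
    rw [map_div₀, map_pow, w_gen hP hw, one_pow, div_one]
    exact HeightOneSpectrum.valuation_le_one w c

theorem strong_approx_fin (x : FiniteAdeleRing Rx Kx) :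
    ∃ ξ : Kx, ∀ v : Pl, Valued.v (x v - algebraMap Kx (Kv v) ξ) ≤ 1 := by
  classical
  have hloc : ∀ v : Pl, ∃ ξ : Kx, Valued.v (x v - algebraMap Kx (Kv v) ξ) ≤ 1 ∧
      ∀ w : Pl, w ≠ v → w.valuation Kx ξ ≤ 1 := by
    intro v
    obtain ⟨k, hk⟩ := approx_one (f := algebraMap Kx (Kv v)) (dense_v v) (x v)
    obtain ⟨ξ, h1, h2⟩ := polar_part v k
    refine ⟨ξ, ?_, h2⟩
    have h3 : x v - algebraMap Kx (Kv v) ξ =
        (x v - algebraMap Kx (Kv v) k) + algebraMap Kx (Kv v) (k - ξ) := by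
      rw [map_sub]
      ring
    rw [h3]
    refine (Valuation.map_add _ _ _).trans (max_le hk ?_)
    rw [v_alg]
    exact h1
  choose ξ h1 h2 using hloc
  have hfin : Set.Finite {v : Pl | ¬ Valued.v (x v) ≤ 1} := by
    have h := x.2
    rw [Filter.eventually_cofinite] at h
    exact h
  refine ⟨∑ u ∈ hfin.toFinset, ξ u, fun w => ?_⟩
  by_cases hw : w ∈ hfin.toFinset
  · rw [← Finset.add_sum_erase _ _ hw, map_add, ← sub_sub]
    refine (Valuation.map_sub _ _ _).trans (max_le (h1 w) ?_)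
    rw [v_alg]
    refine Valuation.map_sum_le _ fun u hu => ?_
    exact h2 u w (Finset.ne_of_mem_erase hu).symm
  · have hw' : Valued.v (x w) ≤ 1 := by
      by_contra hcon
      exact hw (hfin.mem_toFinset.2 hcon)
    refine (Valuation.map_sub _ _ _).trans (max_le hw' ?_)
    rw [v_alg]
    refine Valuation.map_sum_le _ fun u hu => ?_
    exact h2 u w (fun h => hw (h ▸ hu))

/-! ### Infinity -/

lemma vinf_poly {p : Rx} (hp : p ≠ 0) :
    RatFunc.inftyValuation (ZMod 2) (algebraMap Rx Kx p) = WithZero.exp (p.natDegree : ℤ) := by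
  rw [RatFunc.inftyValuation_apply]
  exact RatFunc.inftyValuation.polynomial (ZMod 2) hp

lemma v_pinf : Valued.v (pinf : Kinf) = WithZero.exp (-1 : ℤ) := by
  have h : ((pinf : Kinfˣ) : Kinf) = algebraMap Kx Kinf (RatFunc.X)⁻¹ := rfl
  rw [h, v_inf, ← one_div]
  exact RatFunc.inftyValuation.X_inv (ZMod 2)

lemma frac_approx (k : Kx) : ∃ r : Rx,
    RatFunc.inftyValuation (ZMod 2) (k - algebraMap Rx Kx r) < 1 := by
  set a := k.num with ha
  set b := k.denom with hb
  have hb0 : b ≠ 0 := RatFunc.denom_ne_zero k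
  have hk : k = algebraMap Rx Kx a / algebraMap Rx Kx b := (RatFunc.num_div_denom k).symm
  have hb1 : algebraMap Rx Kx b ≠ 0 := by simpa using hb0
  refine ⟨a / b, ?_⟩
  have h1 : k - algebraMap Rx Kx (a / b) = algebraMap Rx Kx (a % b) / algebraMap Rx Kx b := by
    have h2 : algebraMap Rx Kx a =
        algebraMap Rx Kx b * algebraMap Rx Kx (a / b) + algebraMap Rx Kx (a % b) := by
      rw [← map_mul, ← map_add, EuclideanDomain.div_add_mod]
    rw [hk]
    field_simp
    rw [h2]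
    ring
  rw [h1, map_div₀, vinf_poly hb0]
  rcases eq_or_ne (a % b) 0 with h0 | h0
  · rw [h0]
    simp
  · rw [vinf_poly h0, ← WithZero.exp_sub]
    have h3 : (a % b).degree < b.degree := EuclideanDomain.mod_lt a hb0
    have h4 : (a % b).natDegree < b.natDegree := Polynomial.natDegree_lt_natDegree h0 h3
    rw [← WithZero.exp_zero, WithZero.exp_lt_exp]
    omega

theorem approx_inf (x : Kinf) :
    ∃ r : Rx, Valued.v (x - algebraMap Kx Kinf (algebraMap Rx Kx r)) < 1 := by
  obtain ⟨k, hk⟩ := approx_exp (f := algebraMap Kx Kinf) dense_inf (RatFunc.X)⁻¹ v_pinf x 1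
  obtain ⟨r, hr⟩ := frac_approx k
  refine ⟨r, ?_⟩
  have h3 : x - algebraMap Kx Kinf (algebraMap Rx Kx r) =
      (x - algebraMap Kx Kinf k) + algebraMap Kx Kinf (k - algebraMap Rx Kx r) := by
    rw [map_sub]
    ring
  rw [h3]
  refine (Valuation.map_add _ _ _).trans_lt (max_lt (hk.trans_lt ?_) ?_)
  · rw [← WithZero.exp_zero, WithZero.exp_lt_exp]
    norm_num
  · rw [v_inf]
    exact hr

lemma res_inf (x : Kinf) : Valued.v x ≤ 1 → Valued.v x < 1 ∨ Valued.v (x - 1) < 1 := by
  intro hx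
  obtain ⟨r, hr⟩ := approx_inf x
  have h1 : Valued.v (algebraMap Kx Kinf (algebraMap Rx Kx r)) ≤ 1 := by
    have h2 : algebraMap Kx Kinf (algebraMap Rx Kx r) =
        x - (x - algebraMap Kx Kinf (algebraMap Rx Kx r)) := by ring
    rw [h2]
    exact (Valuation.map_sub _ _ _).trans (max_le hx hr.le)
  rcases eq_or_ne r 0 with h0 | h0
  · left
    rw [h0] at hr
    simpa using hr
  · right
    rw [v_inf, vinf_poly h0, ← WithZero.exp_zero, WithZero.exp_le_exp] at h1
    have h2 : r.natDegree = 0 := by omega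
    obtain ⟨c, hc⟩ := Polynomial.natDegree_eq_zero.1 h2
    have hc0 : c ≠ 0 := by
      rintro rfl
      apply h0
      rw [← hc, map_zero]
    have hc1 : c = 1 := by
      revert hc0
      revert c
      intro c _ hc0
      fin_cases c
      · exact absurd rfl hc0
      · rfl
    rw [← hc, hc1] at hr
    simpa using hr

/-! ### Finite residue sets -/

/-- the polynomials of degree less than `n` -/
lemma finite_polys (n : ℕ) : ∃ s : Finset Rx, ∀ r : Rx, r.natDegree < n → r ∈ s := by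
  classical
  refine ⟨Finset.univ.image (fun c : Fin n → ZMod 2 =>
    ∑ i : Fin n, Polynomial.C (c i) * Polynomial.X ^ (i : ℕ)), fun r hr => ?_⟩
  rw [Finset.mem_image]
  refine ⟨fun i => r.coeff i, Finset.mem_univ _, ?_⟩
  rw [Fin.sum_univ_eq_sum_range (fun i => Polynomial.C (r.coeff i) * Polynomial.X ^ i) n]
  conv_rhs => rw [r.as_sum_range' n hr]
  refine Finset.sum_congr rfl fun i _ => ?_
  rw [Polynomial.C_mul_X_pow_eq_monomial]

theorem fin_res_v (v : Pl) (M : ℕ) : ∃ s : Finset (Kv v), ∀ x : Kv v, Valued.v x ≤ 1 →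
    ∃ y ∈ s, Valued.v y ≤ 1 ∧ Valued.v (x - y) ≤ WithZero.exp (-(M : ℤ)) := by
  classical
  obtain ⟨P, hP, hP0⟩ := exists_gen v
  have hvπ := v_gen hP hP0
  have hvπn : v.valuation Kx (algebraMap Rx Kx (P ^ M)) = WithZero.exp (-(M : ℤ)) := by
    rw [map_pow, map_pow, hvπ, ← WithZero.exp_nsmul]
    simp
  have hPn0 : P ^ M ≠ 0 := pow_ne_zero _ hP0
  obtain ⟨s, hs⟩ := finite_polys ((P ^ M).natDegree + 1)
  refine ⟨s.image (fun r => algebraMap Kx (Kv v) (algebraMap Rx Kx r)), fun x hx => ?_⟩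
  obtain ⟨k, hk⟩ := approx_exp (f := algebraMap Kx (Kv v)) (dense_v v) (algebraMap Rx Kx P)
    (by rw [v_alg]; exact hvπ) x M
  have hM1 : WithZero.exp (-(M : ℤ)) ≤ 1 := by
    rw [← WithZero.exp_zero, WithZero.exp_le_exp]
    omega
  have hk1 : v.valuation Kx k ≤ 1 := by
    rw [← v_alg]
    have h2 : algebraMap Kx (Kv v) k = x - (x - algebraMap Kx (Kv v) k) := by ring
    rw [h2]
    exact (Valuation.map_sub _ _ _).trans (max_le hx (hk.trans hM1))
  obtain ⟨a, ha⟩ := HeightOneSpectrum.exists_valuation_sub_lt_of_integer v hk1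
    (Units.mk0 (WithZero.exp (-(M : ℤ))) WithZero.exp_ne_zero)
  rw [Units.val_mk0] at ha
  refine ⟨algebraMap Kx (Kv v) (algebraMap Rx Kx (a % P ^ M)), ?_, ?_, ?_⟩
  · refine Finset.mem_image_of_mem _ (hs _ ?_)
    have h3 : (a % P ^ M).degree < (P ^ M).degree := EuclideanDomain.mod_lt a hPn0
    rcases eq_or_ne (a % P ^ M) 0 with h0 | h0
    · rw [h0]
      simp
    · have h4 := Polynomial.natDegree_lt_natDegree h0 h3
      omega
  · rw [v_alg]
    exact HeightOneSpectrum.valuation_le_one v _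
  · have h5 : x - algebraMap Kx (Kv v) (algebraMap Rx Kx (a % P ^ M)) =
        (x - algebraMap Kx (Kv v) k) + (algebraMap Kx (Kv v) (-(algebraMap Rx Kx a - k)) +
          algebraMap Kx (Kv v) (algebraMap Rx Kx (P ^ M * (a / P ^ M)))) := by
      have h6 : a % P ^ M = a - P ^ M * (a / P ^ M) := by
        rw [EuclideanDomain.mod_eq_sub_mul_div]
      rw [h6, map_sub, map_sub, map_neg, map_sub]
      ring
    rw [h5]
    refine (Valuation.map_add _ _ _).trans (max_le hk ?_)
    refine (Valuation.map_add _ _ _).trans (max_le ?_ ?_)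
    · rw [v_alg, Valuation.map_neg]
      exact ha.le
    · rw [v_alg, map_mul, map_mul, hvπn]
      exact mul_le_of_le_one_right' (HeightOneSpectrum.valuation_le_one v _)

theorem fin_res_inf (M : ℕ) : ∃ s : Finset Kinf, ∀ x : Kinf, Valued.v x ≤ 1 →
    ∃ y ∈ s, Valued.v y ≤ 1 ∧ Valued.v (x - y) ≤ WithZero.exp (-(M : ℤ)) := by
  classical
  obtain ⟨s, hs⟩ := finite_polys (M + 1)
  set p : Kinf := (pinf : Kinf) with hp
  have hvp : Valued.v (p ^ M) = WithZero.exp (-(M : ℤ)) := by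
    rw [map_pow, v_pinf, ← WithZero.exp_nsmul]
    simp
  have hp0 : p ≠ 0 := pinf.ne_zero
  have hM1 : WithZero.exp (-(M : ℤ)) ≤ 1 := by
    rw [← WithZero.exp_zero, WithZero.exp_le_exp]
    omega
  refine ⟨s.image (fun r => p ^ M * algebraMap Kx Kinf (algebraMap Rx Kx r)), fun x hx => ?_⟩
  obtain ⟨r, hr⟩ := approx_inf (x / p ^ M)
  have hdiv : Valued.v (x / p ^ M) ≤ WithZero.exp (M : ℤ) := by
    rw [map_div₀, hvp, WithZero.exp_neg, div_inv_eq_mul]
    exact mul_le_of_le_one_left' hx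
  have h1 : x - p ^ M * algebraMap Kx Kinf (algebraMap Rx Kx r) =
      p ^ M * (x / p ^ M - algebraMap Kx Kinf (algebraMap Rx Kx r)) := by
    field_simp
  have h2 : Valued.v (x - p ^ M * algebraMap Kx Kinf (algebraMap Rx Kx r)) ≤
      WithZero.exp (-(M : ℤ)) := by
    rw [h1, map_mul, hvp]
    exact mul_le_of_le_one_right' hr.le
  refine ⟨p ^ M * algebraMap Kx Kinf (algebraMap Rx Kx r), ?_, ?_, h2⟩
  · refine Finset.mem_image_of_mem _ (hs _ ?_)
    rcases eq_or_ne r 0 with h0 | h0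
    · rw [h0]
      simp
    · have h3 : Valued.v (algebraMap Kx Kinf (algebraMap Rx Kx r)) ≤ WithZero.exp (M : ℤ) := by
        have h4 : algebraMap Kx Kinf (algebraMap Rx Kx r) =
            x / p ^ M - (x / p ^ M - algebraMap Kx Kinf (algebraMap Rx Kx r)) := by ring
        rw [h4]
        refine (Valuation.map_sub _ _ _).trans (max_le hdiv (hr.le.trans ?_))
        rw [← WithZero.exp_zero, WithZero.exp_le_exp]
        omega
      rw [v_inf, vinf_poly h0, WithZero.exp_le_exp] at h3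
      omega
  · have h5 : p ^ M * algebraMap Kx Kinf (algebraMap Rx Kx r) =
        x - (x - p ^ M * algebraMap Kx Kinf (algebraMap Rx Kx r)) := by ring
    rw [h5]
    exact (Valuation.map_sub _ _ _).trans (max_le hx (h2.trans hM1))

end TH824.BK
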